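import Pool.Agent.H98.CE.Targets

/-!
# Row BK2 of cel_modules: powers of the functional of the first blocks
-/

set_option autoImplicit false

open MeasureTheory ProbabilityTheory Filter Topology

namespace Pool.Agent.H51.CE

open Pool.Agent.H95 Pool.Agent.H95.Cop
open Pool.Agent.H55.CG (pz VV Mo)
open Pool.Agent.H98.CE

theorem bk2_unique {ℓ aY aV np S T S' T' : ℕ} {x : ℕ → ℝ} (h : sg ℓ aY aV np S T x)
    (h' : sg ℓ aY aV np S' T' x) (h1 : S < T) (h2 : T < np) (h1' : S' < T') (h2' : T' < np) :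
    S = S' ∧ T = T' := by
  have e : ∀ k < np, (S < k ∧ k ≤ T ↔ S' < k ∧ k ≤ T') := fun k hk =>
    (h k hk).symm.trans (h' k hk)
  have a1 := (e (S + 1) (by omega)).1 ⟨by omega, by omega⟩
  have a2 := (e (S' + 1) (by omega)).2 ⟨by omega, by omega⟩
  have a3 := (e T (by omega)).1 ⟨by omega, le_rfl⟩
  have a4 := (e T' (by omega)).2 ⟨by omega, le_rfl⟩
  omega

theorem pf_BK2 (hAAB : T_AAB) (_hBK1 : T_BK1) : T_BK2 := by
  classical
  intro K ℓ α β κ hℓ hα hκ hHK aY aV np J jj haY x p hp
  have hmem : ∀ i ∈ II np J jj, i.1 < i.2 ∧ i.2 < np ∧ 3 ≤ jj (i.2 - i.1) := by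
    intro i hi
    unfold II at hi
    rw [Finset.mem_filter, Finset.mem_product, Finset.mem_range, Finset.mem_range] at hi
    exact ⟨hi.2.1, hi.1.2, hi.2.2.1⟩
  have hAA : ∀ i ∈ II np J jj, 0 ≤ AA K ℓ α κ aY aV i.1 i.2 x := by
    intro i hi
    obtain ⟨a1, a2, -⟩ := hmem i hi
    exact (hAAB K ℓ α κ hℓ hα hκ hHK x aY aV np i.1 i.2 haY a1 a2).1
  set act : ℕ × ℕ → Prop := fun i => sg ℓ aY aV np i.1 i.2 x ∧
    Real.exp (β * jj (i.2 - i.1)) ≤ AA K ℓ α κ aY aV i.1 i.2 x with hact
  have hw : w0 K ℓ α β κ aY aV np J jj x =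
      ∑ i ∈ II np J jj, if act i then AA K ℓ α κ aY aV i.1 i.2 x else 0 := by
    unfold w0
    refine Finset.sum_congr rfl fun i _ => ?_
    by_cases h : act i
    · rw [if_pos h]
    · rw [if_neg h]
  have hl : l0 K ℓ α β κ aY aV np J jj x =
      ∑ i ∈ II np J jj, if act i then jj (i.2 - i.1) else 0 := by
    unfold l0
    refine Finset.sum_congr rfl fun i _ => ?_
    by_cases h : act i
    · rw [if_pos h]
    · rw [if_neg h]
  have huniq : ∀ i ∈ II np J jj, ∀ i' ∈ II np J jj, act i → act i' → i = i' := by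
    intro i hi i' hi' h h'
    obtain ⟨a1, a2, -⟩ := hmem i hi
    obtain ⟨b1, b2, -⟩ := hmem i' hi'
    obtain ⟨c1, c2⟩ := bk2_unique h.1 h'.1 a1 a2 b1 b2
    exact Prod.ext c1 c2
  by_cases hex : ∃ i ∈ II np J jj, act i
  · obtain ⟨i0, hi0, ha0⟩ := hex
    have hw0 : w0 K ℓ α β κ aY aV np J jj x = AA K ℓ α κ aY aV i0.1 i0.2 x := by
      rw [hw, Finset.sum_eq_single i0, if_pos ha0]
      · intro i hi hne
        rw [if_neg fun h => hne (huniq i hi i0 hi0 h ha0)]
      · intro h
        exact absurd hi0 h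
    have hl0 : l0 K ℓ α β κ aY aV np J jj x = jj (i0.2 - i0.1) := by
      rw [hl, Finset.sum_eq_single i0, if_pos ha0]
      · intro i hi hne
        rw [if_neg fun h => hne (huniq i hi i0 hi0 h ha0)]
      · intro h
        exact absurd hi0 h
    refine ⟨fun j hj => ?_, ?_⟩
    · rw [hl0, hw0]
      by_cases hjj : jj (i0.2 - i0.1) = j
      · rw [if_pos hjj, Finset.sum_eq_single i0]
        · have h1 : sg ℓ aY aV np i0.1 i0.2 x ∧
              Real.exp (β * j) ≤ AA K ℓ α κ aY aV i0.1 i0.2 x := by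
            rw [← hjj]
            exact ha0
          rw [if_pos h1]
        · intro i hi hne
          rw [Finset.mem_filter] at hi
          rw [if_neg]
          intro h
          apply hne
          refine huniq i hi.1 i0 hi0 ?_ ha0
          rw [hact]
          simp only
          rw [hi.2]
          exact h
        · intro h
          exact absurd (Finset.mem_filter.2 ⟨hi0, hjj⟩) h
      · rw [if_neg hjj]
        symm
        refine Finset.sum_eq_zero fun i hi => ?_
        rw [Finset.mem_filter] at hi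
        rw [if_neg]
        intro h
        apply hjj
        have h2 : act i := by
          rw [hact]
          simp only
          rw [hi.2]
          exact h
        rw [← huniq i hi.1 i0 hi0 h2 ha0]
        exact hi.2
    · rw [hw0]
      exact Finset.single_le_sum (f := fun i : ℕ × ℕ => AA K ℓ α κ aY aV i.1 i.2 x ^ p)
        (fun i hi => Real.rpow_nonneg (hAA i hi) _) hi0
  · have hno : ∀ i ∈ II np J jj, ¬ act i := fun i hi h => hex ⟨i, hi, h⟩
    have hw0 : w0 K ℓ α β κ aY aV np J jj x = 0 := by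
      rw [hw]
      exact Finset.sum_eq_zero fun i hi => if_neg (hno i hi)
    have hl0 : l0 K ℓ α β κ aY aV np J jj x = 0 := by
      rw [hl]
      exact Finset.sum_eq_zero fun i hi => if_neg (hno i hi)
    refine ⟨fun j hj => ?_, ?_⟩
    · rw [hl0, if_neg (by omega)]
      symm
      refine Finset.sum_eq_zero fun i hi => ?_
      rw [Finset.mem_filter] at hi
      rw [if_neg]
      intro h
      apply hno i hi.1
      rw [hact]
      simp only
      rw [hi.2]
      exact h
    · rw [hw0, Real.zero_rpow hp.ne']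
      exact Finset.sum_nonneg fun i hi => Real.rpow_nonneg (hAA i hi) _

end Pool.Agent.H51.CE
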