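import Pool.Agent.H98.CE.Targets

/-!
# Row GLU of cel_modules: the union of the sets of lists is disjoint
-/

set_option autoImplicit false

open MeasureTheory ProbabilityTheory Filter Topology

namespace Pool.Agent.H51.CE

open Pool.Agent.H95 Pool.Agent.H95.Cop
open Pool.Agent.H55.CG (pz VV Mo)
open Pool.Agent.H98.CE

theorem pf_GLU (hGLF : T_GLF) : T_GLU := by
  intro G A ms f
  have hhead : ∀ m i : ℕ, ∀ L ∈ gl G m i, L.head? = some i := fun m i L hL =>
    ((hGLF G m i).2 L hL).2.2.1
  have hlen : ∀ m i : ℕ, ∀ L ∈ gl G m i, L.length = m + 1 := fun m i L hL =>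
    ((hGLF G m i).2 L hL).2.1
  refine ⟨fun L => ?_, ?_⟩
  · unfold GLs
    simp only [Finset.mem_biUnion, Finset.mem_range]
  · unfold GLs
    rw [Finset.sum_biUnion]
    · refine Finset.sum_congr rfl fun i _ => ?_
      rw [Finset.sum_biUnion]
      intro m _ m' _ hmm
      refine Finset.disjoint_left.2 fun L hL hL' => hmm ?_
      have h1 := hlen m i L hL
      have h2 := hlen m' i L hL'
      omega
    · intro i _ i' _ hii
      refine Finset.disjoint_left.2 fun L hL hL' => hii ?_
      rw [Finset.mem_biUnion] at hL hL'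
      obtain ⟨m, -, hm⟩ := hL
      obtain ⟨m', -, hm'⟩ := hL'
      have h1 := hhead m i L hm
      have h2 := hhead m' i' L hm'
      rw [h1] at h2
      exact Option.some.inj h2

end Pool.Agent.H51.CE
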