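import Pool.Agent.H98.CE.Targets

/-!
# Row HKS of cel_modules: the jump law on the scale of the cells
-/

set_option autoImplicit false

open MeasureTheory ProbabilityTheory Filter Topology

namespace Pool.Agent.H51.CE

open Pool.Agent.H95 Pool.Agent.H95.Cop
open Pool.Agent.H55.CG (pz VV Mo)
open Pool.Agent.H98.CE

theorem pf_HKS (hVVS : T_VVS) : T_HKS := by
  intro α e1 hα hα1 he1 he K hK0 cK hcK hT
  have h1a : 0 < 1 + α := by linarith
  have h1b : 0 < 1 - α := by linarith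
  -- the constant r
  set q : ℝ := e1 * (1 + α) / (1 - α) with hq
  have hq0 : 0 < q := by positivity
  have hq1 : q < 1 := by
    rw [hq, div_lt_one h1b]
    exact he
  set r : ℝ := Real.sqrt q with hr
  have hr0 : 0 < r := Real.sqrt_pos.2 hq0
  have hr2 : r * r = q := Real.mul_self_sqrt hq0.le
  have hr1 : r < 1 := by
    rw [hr, Real.sqrt_lt' one_pos, one_pow]
    exact hq1
  have hrc : r * cK < cK := by nlinarith
  have hev := hT.eventually (lt_mem_nhds hrc)
  obtain ⟨n1, hn1⟩ := Filter.eventually_atTop.1 hev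
  set n0 : ℕ := max n1 1 with hn0
  have hkk : ∀ n : ℕ, n0 ≤ n → r * cK * (n : ℝ) ^ (-(1 + α)) ≤ kk K n := by
    intro n hn
    have h1 : n1 ≤ n := le_trans (le_max_left _ _) hn
    have h2 : 1 ≤ n := le_trans (le_max_right _ _) hn
    have h3 := hn1 n h1
    have hnp : (0 : ℝ) < n := by exact_mod_cast h2
    have h4 : (n : ℝ) ^ (1 + α) * (n : ℝ) ^ (-(1 + α)) = 1 := by
      rw [← Real.rpow_add hnp, add_neg_cancel, Real.rpow_zero]
    have h5 : 0 < (n : ℝ) ^ (-(1 + α)) := Real.rpow_pos_of_pos hnp _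
    have h6 : kk K n = (K n).toReal := rfl
    rw [h6]
    calc r * cK * (n : ℝ) ^ (-(1 + α)) ≤ (K n).toReal * (n : ℝ) ^ (1 + α) *
          (n : ℝ) ^ (-(1 + α)) := by gcongr
      _ = (K n).toReal := by rw [mul_assoc, h4, mul_one]
  refine ⟨r * cK, n0, by positivity, hkk, ?_⟩
  filter_upwards [hVVS α hα hα1 K hK0 cK hcK hT r hr1, Filter.eventually_ge_atTop n0] with l hl hl0
  have hl1 : 1 ≤ l := le_trans (le_max_right _ _) hl0
  have hlp : (0 : ℝ) < l := by exact_mod_cast hl1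
  have hl4 : (l : ℝ) ^ (1 + α) * (l : ℝ) ^ (-(1 + α)) = 1 := by
    rw [← Real.rpow_add hlp, add_neg_cancel, Real.rpow_zero]
  have hl5 : 0 < (l : ℝ) ^ (-(1 + α)) := Real.rpow_pos_of_pos hlp _
  have hl6 : 0 < (l : ℝ) ^ (1 + α) := Real.rpow_pos_of_pos hlp _
  have hVpos : 0 ≤ VV K l := le_trans (by positivity) hl
  have hsec : e1 * α / 2 ≤ VV K l * (r * cK / 2) * (l : ℝ) ^ (-(1 + α)) := by
    calc e1 * α / 2 = r * (α * (1 - α) / (cK * (1 + α))) * (l : ℝ) ^ (1 + α) *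
          (r * cK / 2) * (l : ℝ) ^ (-(1 + α)) := by
          have h7 : r * (α * (1 - α) / (cK * (1 + α))) * (l : ℝ) ^ (1 + α) *
              (r * cK / 2) * (l : ℝ) ^ (-(1 + α)) =
              (r * r) * (α * (1 - α) / (cK * (1 + α))) * (cK / 2) *
              ((l : ℝ) ^ (1 + α) * (l : ℝ) ^ (-(1 + α))) := by ring
          rw [h7, hl4, hr2, hq]
          field_simp
      _ ≤ VV K l * (r * cK / 2) * (l : ℝ) ^ (-(1 + α)) := by gcongr
  refine ⟨?_, hsec⟩
  intro j hj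
  have hj0 : n0 ≤ j := le_trans hl0 hj
  have hjp : (0 : ℝ) < j := by
    have : 1 ≤ j := le_trans hl1 hj
    exact_mod_cast this
  have h8 : (l : ℝ) ^ (-(1 + α)) * ((j : ℝ) / l) ^ (-(1 + α)) = (j : ℝ) ^ (-(1 + α)) := by
    rw [← Real.mul_rpow hlp.le (by positivity)]
    congr 1
    field_simp
  have h9 := hkk j hj0
  have h10 : 0 < ((j : ℝ) / l) ^ (-(1 + α)) := Real.rpow_pos_of_pos (by positivity) _
  calc e1 * α / 2 * ((j : ℝ) / l) ^ (-(1 + α)) ≤
        VV K l * (r * cK / 2) * (l : ℝ) ^ (-(1 + α)) * ((j : ℝ) / l) ^ (-(1 + α)) := by gcongr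
    _ = r * cK * (j : ℝ) ^ (-(1 + α)) / 2 * VV K l := by
      rw [← h8]
      ring
    _ ≤ kk K j / 2 * VV K l := by gcongr

end Pool.Agent.H51.CE
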