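import Pool.Agent.H99.CE.Targets

/-!
# Row SCL of crx_modules: all scales
-/

set_option autoImplicit false

open MeasureTheory ProbabilityTheory Filter Topology
open scoped ENNReal

namespace Pool.Agent.H51.CE

open Pool.Agent.H95 Pool.Agent.H95.Cop Pool.Agent.H96.Cop Pool.Agent.H99.CE

theorem scl_QN_le (hHFT : T_HFT) (K : PMF ℕ) (ν : Measure ℝ) (α σ c δ : ℝ) (k B : ℕ)
    (hB : 1 ≤ B) (hc : 0 < c) (hδ : 0 < δ) (h0 : 0 < th α σ) (h1 : th α σ < 1) :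
    QN K ν α σ c δ k B ≤ QT K ν α σ c δ k B := by
  unfold QN QT
  have hcq : 0 < cq c δ := by
    unfold cq
    positivity
  have hBp : (0 : ℝ) < B := by exact_mod_cast hB
  have ht : 0 < tb α c δ B := by
    unfold tb
    positivity
  refine ENNReal.div_le_div_right ?_ _
  refine le_trans (lintegral_mono fun x => (hHFT (tb α c δ B) (th α σ)
    (BX (w1 K B) B 0 x) ht h0 h1).1) ?_
  exact ENNReal.le_tsum (f := fun b => ∫⁻ x, BX (w1 K B) B b x ^ th α σ ∂(iid ν)) 0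

theorem scl_arith {ε h p : ℝ} (hε : 0 < ε) (hε1 : ε ≤ 1) (hh : 0 < h) (hp : 0 ≤ p)
    (hhp : (1 + ε) * h * p ≤ 1 / 4) :
    0 < 1 - (1 + 3 * ε) * h * p ∧
    (1 + ε) ^ 2 * p / (1 - (1 + ε) * h * p) + ε ≤
      (1 + 3 * ε) * p / (1 - (1 + 3 * ε) * h * p) + 3 * ε ∧
    0 ≤ (1 + ε) ^ 2 * p / (1 - (1 + ε) * h * p) + ε ∧
    ∀ g : ℝ, 0 ≤ g → (1 + ε) ^ 2 * g / (1 - (1 + ε) * h * p) ^ 2 + 2 * ε ≤
      (1 + 3 * ε) * g / (1 - (1 + 3 * ε) * h * p) ^ 2 + 3 * ε ∧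
      0 ≤ (1 + ε) ^ 2 * g / (1 - (1 + ε) * h * p) ^ 2 + 2 * ε := by
  have hhp0 : 0 ≤ h * p := by positivity
  have e1 : (1 + ε) * h * p = h * p + ε * (h * p) := by ring
  have e2 : (1 + 3 * ε) * h * p = h * p + 3 * (ε * (h * p)) := by ring
  have e3 : 0 ≤ ε * (h * p) := by positivity
  have hd1 : 0 < 1 - (1 + 3 * ε) * h * p := by
    rw [e1] at hhp
    rw [e2]
    linarith
  have hd2 : 1 - (1 + 3 * ε) * h * p ≤ 1 - (1 + ε) * h * p := by
    rw [e1, e2]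
    linarith
  have hd3 : 0 < 1 - (1 + ε) * h * p := lt_of_lt_of_le hd1 hd2
  have hsq : (1 + ε) ^ 2 ≤ 1 + 3 * ε := by nlinarith
  have hnum : ∀ g : ℝ, 0 ≤ g → (1 + ε) ^ 2 * g ≤ (1 + 3 * ε) * g := fun g hg =>
    mul_le_mul_of_nonneg_right hsq hg
  have hn0 : ∀ g : ℝ, 0 ≤ g → 0 ≤ (1 + 3 * ε) * g := fun g hg => by positivity
  refine ⟨hd1, ?_, ?_, fun g hg => ⟨?_, ?_⟩⟩
  · have := div_le_div₀ (hn0 p hp) (hnum p hp) hd1 hd2
    linarith
  · have : 0 ≤ (1 + ε) ^ 2 * p / (1 - (1 + ε) * h * p) := by positivity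
    linarith
  · have hd4 : (1 - (1 + 3 * ε) * h * p) ^ 2 ≤ (1 - (1 + ε) * h * p) ^ 2 := by gcongr
    have := div_le_div₀ (hn0 g hg) (hnum g hg) (by positivity) hd4
    linarith
  · have : 0 ≤ (1 + ε) ^ 2 * g / (1 - (1 + ε) * h * p) ^ 2 := by positivity
    linarith

/-- the real number of a moment, with a large value at infinity -/
noncomputable def scl_re (A : ℝ) (x : ℝ≥0∞) : ℝ := if x = ∞ then A + 1 else x.toReal

theorem scl_re_le {A : ℝ} {x : ℝ≥0∞} (h : scl_re A x ≤ A) : x ≠ ∞ ∧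
    scl_re A x = x.toReal ∧ x = ENNReal.ofReal (scl_re A x) ∧ x ≤ ENNReal.ofReal A := by
  unfold scl_re at h ⊢
  by_cases hx : x = ∞
  · rw [if_pos hx] at h
    linarith
  · rw [if_neg hx] at h ⊢
    refine ⟨hx, rfl, (ENNReal.ofReal_toReal hx).symm, ?_⟩
    rw [← ENNReal.ofReal_toReal hx]
    exact ENNReal.ofReal_le_ofReal h

theorem scl_re_of_le {A y : ℝ} {x : ℝ≥0∞} (hy : 0 ≤ y) (h : x ≤ ENNReal.ofReal y) :
    x ≠ ∞ ∧ scl_re A x ≤ y := by
  have hx : x ≠ ∞ := ne_top_of_le_ne_top ENNReal.ofReal_ne_top h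
  refine ⟨hx, ?_⟩
  unfold scl_re
  rw [if_neg hx]
  exact ENNReal.toReal_le_of_le_ofReal hy h

theorem scl_re_nonneg {A : ℝ} (hA : 0 ≤ A) (x : ℝ≥0∞) : 0 ≤ scl_re A x := by
  unfold scl_re
  split_ifs
  · linarith
  · exact ENNReal.toReal_nonneg

theorem pf_SCL (_hPFM : T_PFM) (hHFT : T_HFT) (hSR1 : T_SR1) (hST1 : T_ST1) (hST2 : T_ST2)
    (hLYA : T_LYA) : T_SCL := by
  classical
  intro δ0 hδ0 hδ02
  obtain ⟨C, κ', hC, hκ', hL⟩ := hLYA δ0 hδ0 hδ02
  refine ⟨C, κ' / 3, hC, by positivity, ?_⟩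
  intro K ν _ α σ c δ h Nb ε X M J n0 k B hPar hNb hhN hJN hc hReg hk hkB hnB hX hQT hQR hQG
  have hCN0 : 0 ≤ C * Nb := by nlinarith
  have hNC : Nb ≤ C * Nb := by nlinarith
  have hNb0 : 0 ≤ Nb := by linarith
  set b : ℕ → ℕ := fun j => M ^ j * B with hb
  have hb0 : b 0 = B := by rw [hb]; simp
  have hbs : ∀ j, b (j + 1) = M * b j := by
    intro j
    rw [hb]
    simp only
    rw [pow_succ']
    ring
  have hbB : ∀ j, B ≤ b j := fun j => Nat.le_mul_of_pos_left B (pow_pos hPar.M1 j)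
  have hb1 : ∀ j, 1 ≤ b j := fun j => le_trans (le_trans hk hkB) (hbB j)
  have hθ0 : 0 < th α σ := lt_of_lt_of_le (by norm_num) hPar.t0
  have hα := hPar.α0
  have hσ := hPar.σ0
  have hθ1 : th α σ < 1 := by
    have := hPar.t1
    linarith
  have hkp : (0 : ℝ) < k := by exact_mod_cast hk
  have hsg : 0 ≤ sg α σ := by
    unfold sg
    positivity
  have hbX : ∀ j ≤ J, ((b j : ℝ) / k) ^ sg α σ ≤ X := by
    intro j hj
    refine le_trans (Real.rpow_le_rpow (by positivity) ?_ hsg) hX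
    have h1 : b j ≤ M ^ J * B := Nat.mul_le_mul_right B (Nat.pow_le_pow_right hPar.M1 hj)
    have h2 : (b j : ℝ) ≤ ((M ^ J * B : ℕ) : ℝ) := by exact_mod_cast h1
    exact div_le_div_of_nonneg_right h2 hkp.le
  have hNT : ∀ j, QN K ν α σ c δ k (b j) ≤ QT K ν α σ c δ k (b j) := fun j =>
    scl_QN_le hHFT K ν α σ c δ k (b j) (hb1 j) hc hPar.δ0 hθ0 hθ1
  -- the real sequences
  set T : ℕ → ℝ := fun j => scl_re (C * Nb) (QT K ν α σ c δ k (b j)) with hT
  set R : ℕ → ℝ := fun j => scl_re (C * Nb) (QR K ν α σ c δ k (b j)) with hR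
  set N : ℕ → ℝ := fun j => if QT K ν α σ c δ k (b j) = ∞ then 0 else
    (QN K ν α σ c δ k (b j)).toReal with hN
  set G : ℕ → ℝ := fun j => (QG K ν α σ c δ k (b j)).toReal with hG
  have hN0 : ∀ j, 0 ≤ N j := by
    intro j
    rw [hN]
    simp only
    split_ifs
    · exact le_rfl
    · exact ENNReal.toReal_nonneg
  have hNTr : ∀ j, N j ≤ T j := by
    intro j
    by_cases hx : QT K ν α σ c δ k (b j) = ∞
    · have h1 : N j = 0 := if_pos hx
      rw [h1]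
      exact scl_re_nonneg hCN0 _
    · have h1 : N j = (QN K ν α σ c δ k (b j)).toReal := if_neg hx
      have h2 : T j = (QT K ν α σ c δ k (b j)).toReal := if_neg hx
      rw [h1, h2]
      exact ENNReal.toReal_mono hx (hNT j)
  have hR0 : ∀ j, 0 ≤ R j := fun j => scl_re_nonneg hCN0 _
  have hG0 : ∀ j, 0 ≤ G j := fun j => ENNReal.toReal_nonneg
  -- one step
  have step : ∀ j, j < J → T j ≤ C * Nb → R j ≤ C * Nb → QG K ν α σ c δ k (b j) ≠ ∞ →
      QG K ν α σ c δ k (b (j + 1)) ≠ ∞ ∧ R (j + 1) ≤ 3 * ε ∧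
      T (j + 1) ≤ (1 + 3 * ε) * (N j + R j) / (1 - (1 + 3 * ε) * h * (N j + R j)) + 3 * ε ∧
      G (j + 1) + h * N (j + 1) ≤
        (1 + 3 * ε) * G j / (1 - (1 + 3 * ε) * h * (N j + R j)) ^ 2 + 3 * ε := by
    intro j hj hTj hRj hGj
    obtain ⟨t1, t2, t3, t4⟩ := scl_re_le hTj
    obtain ⟨r1, r2, r3, r4⟩ := scl_re_le hRj
    have hNj : N j = (QN K ν α σ c δ k (b j)).toReal := if_neg t1
    have hQNj : QN K ν α σ c δ k (b j) ≠ ∞ := ne_top_of_le_ne_top t1 (hNT j)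
    have hsum : QN K ν α σ c δ k (b j) + QR K ν α σ c δ k (b j) ≤
        ENNReal.ofReal (N j + R j) := by
      rw [ENNReal.ofReal_add (hN0 j) (hR0 j), hNj, ENNReal.ofReal_toReal hQNj]
      exact add_le_add le_rfl (le_of_eq r3)
    have hp0 : 0 ≤ N j + R j := add_nonneg (hN0 j) (hR0 j)
    have hp1 : N j + R j ≤ 2 * (C * Nb) := by linarith [hNTr j]
    have hh0 := hPar.h0
    have hε0 := hPar.ε0
    have hhp : (1 + ε) * h * (N j + R j) ≤ 1 / 4 := by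
      refine le_trans ?_ hPar.c2
      exact mul_le_mul_of_nonneg_left hp1 (by positivity)
    obtain ⟨-, a2, a3, a4⟩ := scl_arith hPar.ε0 hPar.ε1 hPar.h0 hp0 hhp
    obtain ⟨a5, a6⟩ := a4 (G j) (hG0 j)
    have s1 := hSR1 K ν α σ c δ h (C * Nb) ε X M n0 k (b j) hPar hc hReg hk
      (le_trans hkB (hbB j)) (le_trans hnB (hbB j)) t4 r4
    have s2 := hST1 K ν α σ c δ h (C * Nb) ε X M n0 k (b j) hPar hc hReg hk
      (le_trans hkB (hbB j)) (le_trans hnB (hbB j)) (hbX j hj.le) t4 (N j + R j) hp0 hp1 hsum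
    have s3 := hST2 K ν α σ c δ h (C * Nb) ε X M n0 k (b j) hPar hc hReg hk
      (le_trans hkB (hbB j)) (le_trans hnB (hbB j)) (hbX j hj.le) t4 (N j + R j) (G j)
      hp0 hp1 (hG0 j) hsum (le_of_eq (ENNReal.ofReal_toReal hGj).symm)
    rw [← hbs] at s1 s2 s3
    obtain ⟨u1, u2⟩ := scl_re_of_le (A := C * Nb) hPar.ε0.le s1
    obtain ⟨v1, v2⟩ := scl_re_of_le (A := C * Nb) a3 s2
    have hQG1 : QG K ν α σ c δ k (b (j + 1)) ≠ ∞ :=
      ne_top_of_le_ne_top ENNReal.ofReal_ne_top (le_trans le_self_add s3)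
    refine ⟨hQG1, ?_, le_trans v2 a2, ?_⟩
    · have : R (j + 1) ≤ ε := u2
      linarith
    · have hQN1 : QN K ν α σ c δ k (b (j + 1)) ≠ ∞ := ne_top_of_le_ne_top v1 (hNT (j + 1))
      have hN1 : N (j + 1) = (QN K ν α σ c δ k (b (j + 1))).toReal := if_neg v1
      have h5 : G (j + 1) + h * N (j + 1) = (QG K ν α σ c δ k (b (j + 1)) +
          ENNReal.ofReal h * QN K ν α σ c δ k (b (j + 1))).toReal := by
        rw [ENNReal.toReal_add hQG1 (ENNReal.mul_ne_top ENNReal.ofReal_ne_top hQN1),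
          ENNReal.toReal_mul, ENNReal.toReal_ofReal hPar.h0.le, hN1]
      rw [h5]
      exact le_trans (ENNReal.toReal_le_of_le_ofReal a6 s3) a5
  -- the start
  have hT0 : T 0 ≤ Nb := by
    have := (scl_re_of_le (A := C * Nb) hNb0 hQT).2
    rw [← hb0] at this
    exact this
  have hRz : R 0 ≤ Nb := by
    have := (scl_re_of_le (A := C * Nb) hNb0 hQR).2
    rw [← hb0] at this
    exact this
  have hGz : G 0 ≤ 1 / 2 - δ0 := by
    have := ENNReal.toReal_le_of_le_ofReal (by linarith) hQG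
    rw [← hb0] at this
    exact this
  have hGf : QG K ν α σ c δ k (b 0) ≠ ∞ := by
    rw [hb0]
    exact ne_top_of_le_ne_top ENNReal.ofReal_ne_top hQG
  have hJN' : (J : ℝ) * (3 * ε) * Nb ≤ κ' := by
    have h1 : (J : ℝ) * (3 * ε) * Nb = 3 * (J * ε * Nb) := by ring
    rw [h1]
    linarith
  have main : ∀ n, n ≤ J → ∀ j ≤ n, QG K ν α σ c δ k (b j) ≠ ∞ ∧ T j ≤ C * Nb ∧
      R j ≤ C * Nb := by
    intro n
    induction n with
    | zero =>
      intro _ j hj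
      obtain rfl : j = 0 := Nat.le_zero.1 hj
      exact ⟨hGf, le_trans hT0 hNC, le_trans hRz hNC⟩
    | succ n ih =>
      intro hn
      have ih' := ih (by omega)
      have h1 : ∀ j ≤ n + 1, T j ≤ C * Nb ∧ R j ≤ C * Nb := by
        refine hL (3 * ε) h Nb (n + 1) (by linarith [hPar.ε0]) (by linarith [hPar.ε1])
          hPar.h0 hNb (by linarith) ?_ N T R G
          (fun j => ⟨hN0 j, hNTr j, hR0 j, hG0 j⟩) hT0 hRz hGz ?_
        · refine le_trans ?_ hJN'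
          have h2 : ((n + 1 : ℕ) : ℝ) ≤ J := by exact_mod_cast hn
          have h3 := hPar.ε0
          gcongr
        · intro j hj hTj hRj
          exact (step j (by omega) hTj hRj (ih' j (by omega)).1).2
      intro j hj
      rcases Nat.lt_or_ge j (n + 1) with hlt | hge
      · exact ih' j (by omega)
      · obtain rfl : j = n + 1 := le_antisymm hj hge
        obtain ⟨i1, i2, i3⟩ := ih' n le_rfl
        exact ⟨(step n (by omega) i2 i3 i1).1, h1 _ le_rfl⟩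
  exact (scl_re_le (main J le_rfl J le_rfl).2.1).2.2.2

end Pool.Agent.H51.CE
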